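import Pool.Agent.Helper29_LT.Exact

/-!
# LT: BAR: the resolution is a retract of the bar complex up to homotopy (helper29)
-/

set_option autoImplicit false
set_option linter.unusedSectionVars false

namespace Pool.Agent.LT.H29

open Matrix

variable {G : Type} [Group G] (C : Res G)

/-! ### The map `ψ` -/

theorem exists_z0 : ∃ z : G × C.X →₀ ℤ, Ho C 0 z ∧ eps C z = 1 := by
  classical
  obtain ⟨w, hw⟩ := C.aug_surj
  refine ⟨(unh w).filter fun p => C.dim p.2 = 0, ?_, ?_⟩
  · intro p hp
    rw [Finsupp.support_filter, Finset.mem_filter] at hp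
    exact hp.2
  · have h3 := Finsupp.filter_add_filter_not (unh w) (fun p => C.dim p.2 = 0)
    have h4 := congrArg (eps C) h3
    rw [map_add, eps_unh, hw] at h4
    have h5 : eps C ((unh w).filter fun p => ¬ C.dim p.2 = 0) = 0 := by
      rw [← Finsupp.sum_single ((unh w).filter fun p => ¬ C.dim p.2 = 0), map_finsuppSum]
      simp only [eps_single]
      refine Finset.sum_eq_zero fun p hp => ?_
      rw [Finsupp.support_filter, Finset.mem_filter] at hp
      have : C.aug p.2 = 0 := by
        by_contra h0
        exact hp.2 (C.aug_dim _ h0)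
      change _ * C.aug p.2 = 0
      rw [this, mul_zero]
    rw [h5, add_zero] at h4
    exact h4

/-- The map `ψ` on lists of length `n`. -/
noncomputable def psiN (z0 : G × C.X →₀ ℤ) : ℕ → List G → (G × C.X →₀ ℤ)
  | 0, _ => 0
  | 1, [] => 0
  | 1, g :: _ => trl g z0
  | _ + 2, [] => 0
  | n + 2, g :: l => trl g (pre C n (lin (psiN z0 (n + 1)) (lbd (1 :: l.map (g⁻¹ * ·)))))

variable {C} {z0 : G × C.X →₀ ℤ}

theorem psiN_ho (hz : Ho C 0 z0) (n : ℕ) (l : List G) : Ho C n (psiN C z0 (n + 1) l) := by
  cases n with
  | zero =>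
    cases l with
    | nil => exact Ho.zero
    | cons g l => exact hz.trl g
  | succ n =>
    cases l with
    | nil => exact Ho.zero
    | cons g l => exact (pre_ho n _).trl g

theorem psiN_eq (n : ℕ) (g : G) (l : List G) :
    psiN C z0 n (l.map (g * ·)) = trl g (psiN C z0 n l) := by
  rcases n with _ | _ | n
  · exact (trl_zero g).symm
  · cases l with
    | nil => exact (trl_zero g).symm
    | cons h l => exact (trl_trl g h z0).symm
  · cases l with
    | nil => exact (trl_zero g).symm
    | cons h l =>
      have h1 : (l.map (g * ·)).map ((g * h)⁻¹ * ·) = l.map (h⁻¹ * ·) := by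
        rw [List.map_map]
        refine List.map_congr_left fun x _ => ?_
        simp only [Function.comp_apply]
        group
      change trl (g * h) (pre C n (lin (psiN C z0 (n + 1))
        (lbd (1 :: (l.map (g * ·)).map ((g * h)⁻¹ * ·))))) = _
      rw [h1, ← trl_trl]
      rfl

theorem lin_psiN_eq (n : ℕ) (g : G) (z : List G →₀ ℤ) :
    lin (psiN C z0 n) (z.mapDomain (List.map (g * ·))) = trl g (lin (psiN C z0 n) z) := by
  rw [lin_mapDomain, trl_lin]
  exact lin_congr fun a _ => psiN_eq n g a

theorem psiN_bd (hz : Ho C 0 z0) (n : ℕ) (l : List G) (hl : l.length = n + 1) :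
    lin C.bdc (psiN C z0 (n + 1) l) = lin (psiN C z0 n) (lbd l) := by
  induction n generalizing l with
  | zero =>
    obtain ⟨g, rfl⟩ := List.length_eq_one_iff.1 hl
    have h1 : lin (psiN C z0 0) (lbd [g]) = 0 := by
      rw [← lin_fun_zero (B := G × C.X) (lbd [g])]
      exact lin_congr fun a _ => rfl
    rw [h1]
    change lin C.bdc (trl g z0) = 0
    rw [bdc_trl, hz.bd_zero, trl_zero]
  | succ n ih =>
    cases l with
    | nil => simp at hl
    | cons g l =>
      have hl1 : l.length = n + 1 := by simpa using hl
      have hmap : (1 :: l.map (g⁻¹ * ·)).map (g * ·) = g :: l := by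
        rw [List.map_cons, mul_one, List.map_map]
        congr 1
        conv_rhs => rw [← List.map_id l]
        refine List.map_congr_left fun x _ => ?_
        simp
      have hlen : (1 :: l.map (g⁻¹ * ·)).length = n + 2 := by simp [hl1]
      have key : lin C.bdc (pre C n (lin (psiN C z0 (n + 1)) (lbd (1 :: l.map (g⁻¹ * ·))))) =
          lin (psiN C z0 (n + 1)) (lbd (1 :: l.map (g⁻¹ * ·))) := by
        apply bd_pre
        · exact Ho.lin fun a _ => psiN_ho hz n a
        · rw [lin_lin]
          have : lin (fun a => lin C.bdc (psiN C z0 (n + 1) a)) (lbd (1 :: l.map (g⁻¹ * ·))) =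
              lin (fun a => lin (psiN C z0 n) (lbd a)) (lbd (1 :: l.map (g⁻¹ * ·))) := by
            refine lin_congr fun a ha => ih a ?_
            have := lbd_len _ a ha
            omega
          rw [this, ← lin_lin, lbd_lbd, lin_zero]
        · cases n with
          | zero =>
            obtain ⟨h, rfl⟩ := List.length_eq_one_iff.1 hl1
            have h2 : lbd (1 :: [h].map (g⁻¹ * ·)) =
                Finsupp.single [g⁻¹ * h] 1 - Finsupp.single [1] 1 := by
              rw [List.map_cons, List.map_nil, lbd_cons, lbd_cons, lbd_nil,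
                Finsupp.mapDomain_zero, sub_zero, Finsupp.mapDomain_single]
            rw [h2, lin_sub, lin_single_one, lin_single_one, map_sub]
            change eps C (trl (g⁻¹ * h) z0) - eps C (trl 1 z0) = 0
            rw [eps_trl, eps_trl, sub_self]
          | succ n => exact (Ho.lin fun a _ => psiN_ho hz (n + 1) a).eps_eq
      change lin C.bdc (trl g (pre C n (lin (psiN C z0 (n + 1))
        (lbd (1 :: l.map (g⁻¹ * ·)))))) = _
      rw [bdc_trl, key, ← lin_psiN_eq, ← lbd_map, hmap]

variable (C) in
/-- The map `ψ`. -/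
noncomputable def psi (z0 : G × C.X →₀ ℤ) (l : List G) : G × C.X →₀ ℤ := psiN C z0 l.length l

theorem psi_eq (g : G) (l : List G) : psi C z0 (l.map (g * ·)) = trl g (psi C z0 l) := by
  unfold psi
  rw [List.length_map, psiN_eq]

theorem lin_psi_eq (g : G) (z : List G →₀ ℤ) :
    lin (psi C z0) (z.mapDomain (List.map (g * ·))) = trl g (lin (psi C z0) z) := by
  rw [lin_mapDomain, trl_lin]
  exact lin_congr fun a _ => psi_eq g a

theorem psi_bd (hz : Ho C 0 z0) (l : List G) :
    lin C.bdc (psi C z0 l) = lin (psi C z0) (lbd l) := by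
  cases l with
  | nil =>
    rw [lbd_nil, lin_zero]
    exact lin_zero _
  | cons g l =>
    unfold psi
    rw [List.length_cons, psiN_bd hz l.length (g :: l) rfl]
    refine lin_congr fun a ha => ?_
    have := lbd_len _ a ha
    rw [List.length_cons] at this
    have h2 : a.length = l.length := by omega
    rw [h2]

theorem psi_ho (hz : Ho C 0 z0) (l : List G) :
    ∀ p ∈ (psi C z0 l).support, l.length = C.dim p.2 + 1 := by
  intro p hp
  cases l with
  | nil =>
    exfalso
    have : psi C z0 [] = 0 := rfl
    rw [this] at hp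
    simp at hp
  | cons g l =>
    rw [psiN_ho hz l.length (g :: l) p hp]
    rfl

/-! ### The map `φ` -/

/-- The equivariant extension of a map from the cells to lists. -/
noncomputable def extL {X : Type} (F : X → (List G →₀ ℤ)) (z : G × X →₀ ℤ) : List G →₀ ℤ :=
  lin (fun p => (F p.2).mapDomain (List.map (p.1 * ·))) z

theorem map_map_mul (g h : G) (z : List G →₀ ℤ) :
    (z.mapDomain (List.map (h * ·))).mapDomain (List.map (g * ·)) =
      z.mapDomain (List.map ((g * h) * ·)) := by
  rw [← Finsupp.mapDomain_comp]
  congr 1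
  funext l
  rw [Function.comp_apply, List.map_map]
  refine List.map_congr_left fun x _ => ?_
  simp [mul_assoc]

theorem extL_trl {X : Type} (F : X → (List G →₀ ℤ)) (g : G) (z : G × X →₀ ℤ) :
    extL F (trl g z) = (extL F z).mapDomain (List.map (g * ·)) := by
  unfold extL
  rw [mapDomain_lin]
  conv_lhs => unfold trl
  rw [lin_mapDomain]
  exact lin_congr fun p _ => (map_map_mul _ _ _).symm

variable (C) in
/-- The map `φ` on the cells of dimension `n`. -/
noncomputable def phiN : ℕ → C.X → (List G →₀ ℤ)
  | 0, x => Finsupp.single [1] (C.aug x)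
  | n + 1, x => (extL (phiN n) (C.row x)).mapDomain (List.cons 1)

variable (C) in
/-- The map `φ`. -/
noncomputable def phi (x : C.X) : List G →₀ ℤ := phiN C (C.dim x) x

theorem phi_zero {x : C.X} (h : C.dim x = 0) : phi C x = Finsupp.single [1] (C.aug x) := by
  unfold phi
  rw [h]
  rfl

theorem phi_succ {x : C.X} (h : C.dim x ≠ 0) :
    phi C x = (extL (phi C) (C.row x)).mapDomain (List.cons 1) := by
  obtain ⟨n, hn⟩ := Nat.exists_eq_succ_of_ne_zero h
  have h1 : phi C x = phiN C (n + 1) x := by
    unfold phi
    rw [hn]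
  rw [h1]
  change (extL (phiN C n) (C.row x)).mapDomain (List.cons 1) = _
  congr 1
  refine lin_congr fun p hp => ?_
  have := row_dim hp
  have h2 : C.dim p.2 = n := by omega
  change _ = (phi C p.2).mapDomain (List.map (p.1 * ·))
  unfold phi
  rw [h2]

theorem phi_len (x : C.X) : ∀ l ∈ (phi C x).support, l.length = C.dim x + 1 := by
  obtain ⟨n, hn⟩ : ∃ n, C.dim x = n := ⟨_, rfl⟩
  induction n generalizing x with
  | zero =>
    intro l hl
    rw [phi_zero hn] at hl
    have := Finsupp.support_single_subset hl
    rw [Finset.mem_singleton] at this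
    rw [this, hn]
    rfl
  | succ n ih =>
    intro l hl
    rw [phi_succ (by omega)] at hl
    obtain ⟨l1, hl1, rfl⟩ := mem_supp_mapDomain hl
    obtain ⟨p, hp, hl2⟩ := mem_supp_lin hl1
    obtain ⟨l3, hl3, rfl⟩ := mem_supp_mapDomain hl2
    have h1 := row_dim hp
    have h2 := ih p.2 (by omega) l3 hl3
    simp only [List.length_cons, List.length_map]
    omega

theorem row_eq (x : C.X) : C.row x = lin C.bdc (Finsupp.single (1, x) 1) := by
  rw [lin_single_one]
  exact (trl_one _).symm

theorem bd_row (x : C.X) : lin C.bdc (C.row x) = 0 := by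
  rw [row_eq]
  exact (bd_bd _).1

theorem eps_row (x : C.X) : eps C (C.row x) = 0 := by
  rw [row_eq]
  exact (bd_bd _).2

theorem row_zero {x : C.X} (h : C.dim x = 0) : C.row x = 0 := by
  by_contra h0
  obtain ⟨p, hp⟩ := Finsupp.support_nonempty_iff.2 h0
  have := row_dim hp
  omega

theorem row_ho {x : C.X} {n : ℕ} (h : C.dim x = n + 1) : Ho C n (C.row x) := by
  intro p hp
  have := row_dim hp
  omega

theorem phi_bd (x : C.X) (hx : C.dim x ≠ 0) :
    lin lbd (phi C x) = extL (phi C) (C.row x) := by
  obtain ⟨n, hn⟩ := Nat.exists_eq_succ_of_ne_zero hx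
  induction n generalizing x with
  | zero =>
    rw [phi_succ hx, lin_lbd_cons]
    have h1 : lin lbd (extL (phi C) (C.row x)) = 0 := by
      unfold extL
      rw [lin_lin]
      have h2 : lin (fun p => lin lbd ((phi C p.2).mapDomain (List.map (p.1 * ·)))) (C.row x) =
          lin (fun p => Finsupp.single [] (C.aug p.2)) (C.row x) := by
        refine lin_congr fun p hp => ?_
        have h3 := row_dim hp
        rw [phi_zero (by omega), Finsupp.mapDomain_single, lin_single]
        simp only [List.map_cons, List.map_nil, mul_one]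
        rw [lbd_cons, lbd_nil, Finsupp.mapDomain_zero, sub_zero, Finsupp.smul_single,
          smul_eq_mul, mul_one]
      rw [h2]
      have h4 : lin (fun p : G × C.X => Finsupp.single ([] : List G) (C.aug p.2)) (C.row x) =
          Finsupp.single [] (eps C (C.row x)) := by
        conv_rhs => rw [← Finsupp.sum_single (C.row x), map_finsuppSum]
        unfold lin Finsupp.sum
        simp only [Finsupp.smul_single, eps_single, smul_eq_mul]
        exact (map_sum (Finsupp.singleAddHom ([] : List G)) _ _).symm
      rw [h4, eps_row, Finsupp.single_zero]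
    rw [h1, Finsupp.mapDomain_zero, sub_zero]
  | succ n ih =>
    rw [phi_succ hx, lin_lbd_cons]
    have h1 : lin lbd (extL (phi C) (C.row x)) = 0 := by
      have h2 : lin lbd (extL (phi C) (C.row x)) =
          lin (fun p => extL (phi C) (C.bdc p)) (C.row x) := by
        unfold extL
        rw [lin_lin]
        refine lin_congr fun p hp => ?_
        have h3 := row_dim hp
        have h4 := ih p.2 (by omega) (by omega)
        have h5 : lin lbd ((phi C p.2).mapDomain (List.map (p.1 * ·))) =
            (lin lbd (phi C p.2)).mapDomain (List.map (p.1 * ·)) := by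
          rw [lin_mapDomain, mapDomain_lin]
          exact lin_congr fun l _ => lbd_map _ _
        rw [h5, h4]
        exact (extL_trl (phi C) p.1 (C.row p.2)).symm
      rw [h2]
      have h6 := lin_lin (fun p => (phi C p.2).mapDomain (List.map (p.1 * ·))) C.bdc (C.row x)
      change lin _ _ = lin (fun p => extL (phi C) (C.bdc p)) (C.row x) at h6
      rw [← h6, bd_row, lin_zero]
    rw [h1, Finsupp.mapDomain_zero, sub_zero]

/-! ### The homotopy -/

variable (C) in
/-- The homotopy on the cells of dimension `n`. -/
noncomputable def thN (F : C.X → (G × C.X →₀ ℤ)) : ℕ → C.X → (G × C.X →₀ ℤ)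
  | 0, x => pre C 0 (Finsupp.single (1, x) 1 - F x)
  | n + 1, x => pre C (n + 1) (Finsupp.single (1, x) 1 - F x - ext (thN F n) (C.row x))

variable (C) in
/-- The homotopy. -/
noncomputable def th (F : C.X → (G × C.X →₀ ℤ)) (x : C.X) : G × C.X →₀ ℤ :=
  thN C F (C.dim x) x

theorem th_zero {F : C.X → (G × C.X →₀ ℤ)} {x : C.X} (h : C.dim x = 0) :
    th C F x = pre C 0 (Finsupp.single (1, x) 1 - F x) := by
  unfold th
  rw [h]
  rfl

theorem th_succ {F : C.X → (G × C.X →₀ ℤ)} {x : C.X} {n : ℕ} (h : C.dim x = n + 1) :
    th C F x = pre C (n + 1) (Finsupp.single (1, x) 1 - F x - ext (th C F) (C.row x)) := by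
  have h1 : th C F x = thN C F (n + 1) x := by
    unfold th
    rw [h]
  rw [h1]
  change pre C (n + 1) (Finsupp.single (1, x) 1 - F x - ext (thN C F n) (C.row x)) = _
  congr 2
  refine lin_congr fun p hp => ?_
  have := row_dim hp
  have h2 : C.dim p.2 = n := by omega
  change _ = trl p.1 (th C F p.2)
  unfold th
  rw [h2]

theorem single_ho (x : C.X) : Ho C (C.dim x) (Finsupp.single ((1 : G), x) 1) := by
  intro p hp
  have := Finsupp.support_single_subset hp
  rw [Finset.mem_singleton] at this
  rw [this]

theorem th_ho (F : C.X → (G × C.X →₀ ℤ)) (x : C.X) : Ho C (C.dim x + 1) (th C F x) := by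
  obtain ⟨n, hn⟩ : ∃ n, C.dim x = n := ⟨_, rfl⟩
  cases n with
  | zero =>
    rw [th_zero hn, hn]
    exact pre_ho 0 _
  | succ n =>
    rw [th_succ hn, hn]
    exact pre_ho (n + 1) _

theorem ext_single {F : C.X → (G × C.X →₀ ℤ)} (x : C.X) :
    ext F (Finsupp.single (1, x) 1) = F x := by
  unfold ext
  rw [lin_single_one]
  exact trl_one _

/-- The homotopy between the identity and the equivariant chain map given by `F`. -/
theorem th_bd {F : C.X → (G × C.X →₀ ℤ)} (h1 : ∀ x, Ho C (C.dim x) (F x))
    (h2 : ∀ x, C.dim x = 0 → eps C (F x) = C.aug x)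
    (h3 : ∀ x, lin C.bdc (F x) = ext F (C.row x)) (x : C.X) :
    Finsupp.single (1, x) 1 - F x = lin C.bdc (th C F x) + ext (th C F) (C.row x) := by
  obtain ⟨n, hn⟩ : ∃ n, C.dim x = n := ⟨_, rfl⟩
  induction n generalizing x with
  | zero =>
    have h4 : ext (th C F) (C.row x) = 0 := by
      rw [row_zero hn]
      exact lin_zero _
    rw [h4, add_zero, th_zero hn, bd_pre]
    · have := (single_ho x).sub (h1 x)
      rwa [hn] at this
    · have := (single_ho x).sub (h1 x)
      rw [hn] at this
      exact this.bd_zero
    · rw [map_sub, eps_single, h2 x hn, one_mul, sub_self]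
  | succ n ih =>
    have h5 : Ho C (n + 1) (Finsupp.single (1, x) 1 - F x - ext (th C F) (C.row x)) := by
      refine Ho.sub ?_ ?_
      · have := (single_ho x).sub (h1 x)
        rwa [hn] at this
      · refine Ho.lin fun p hp => ?_
        have := (th_ho F p.2).trl p.1
        rwa [← row_dim hp, hn] at this
    have h6 : lin C.bdc (Finsupp.single (1, x) 1 - F x - ext (th C F) (C.row x)) = 0 := by
      have h7 : lin C.bdc (ext (th C F) (C.row x)) =
          lin (fun p => Finsupp.single p 1 - trl p.1 (F p.2) - ext (th C F) (C.bdc p))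
            (C.row x) := by
        unfold ext
        rw [lin_lin]
        refine lin_congr fun p hp => ?_
        have h8 := ih p.2 (by have := row_dim hp; omega)
        have h9 : lin C.bdc (th C F p.2) =
            Finsupp.single (1, p.2) 1 - F p.2 - ext (th C F) (C.row p.2) := by
          rw [h8]; abel
        rw [bdc_trl, h9, trl_sub, trl_sub, trl_single, mul_one]
        congr 1
        exact (ext_trl (th C F) p.1 (C.row p.2)).symm
      have h10 : lin (fun p => ext (th C F) (C.bdc p)) (C.row x) = 0 := by
        have h11 := lin_lin (fun p => trl p.1 (th C F p.2)) C.bdc (C.row x)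
        change lin _ _ = lin (fun p => ext (th C F) (C.bdc p)) (C.row x) at h11
        rw [← h11, bd_row, lin_zero]
      have h12 : lin (fun p : G × C.X => Finsupp.single p 1) (C.row x) = C.row x :=
        lin_fun_single _
      rw [lin_fun_sub, lin_fun_sub, h10, h12] at h7
      rw [lin_sub, lin_sub, h7, ← row_eq, h3]
      unfold ext
      abel
    rw [th_succ hn, bd_pre h5 h6 h5.eps_eq]
    abel

/-- BAR. -/
theorem bar : BarStmt := by
  intro G _ C
  obtain ⟨z0, hz, he⟩ := exists_z0 C
  have heq : ∀ (g : G) (z : List G →₀ ℤ),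
      lin (psi C z0) (z.mapDomain (List.map (g * ·))) = trl g (lin (psi C z0) z) :=
    lin_psi_eq
  refine ⟨phi C, psi C z0, th C fun x => lin (psi C z0) (phi C x), phi_len, psi_ho hz, ?_, ?_,
    psi_bd hz, phi_bd, ?_⟩
  · intro x p hp
    exact th_ho _ x p hp
  · intro g l
    exact psi_eq g l
  · intro x
    refine th_bd (F := fun x => lin (psi C z0) (phi C x)) ?_ ?_ ?_ x
    · intro x p hp
      obtain ⟨l, hl, hp2⟩ := mem_supp_lin hp
      have h1 := phi_len x l hl
      have h2 := psi_ho hz l p hp2
      omega
    · intro x hx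
      rw [phi_zero hx, lin_single]
      change eps C (C.aug x • trl 1 z0) = _
      rw [map_zsmul, eps_trl, he, smul_eq_mul, mul_one]
    · intro x
      have h1 : ext (fun x => lin (psi C z0) (phi C x)) (C.row x) =
          lin (psi C z0) (extL (phi C) (C.row x)) := by
        unfold ext extL
        rw [lin_lin]
        exact lin_congr fun p _ => (heq _ _).symm
      rw [h1]
      by_cases hx : C.dim x = 0
      · rw [row_zero hx]
        have h2 : extL (phi C) (0 : G × C.X →₀ ℤ) = 0 := lin_zero _
        rw [h2, lin_zero, phi_zero hx, lin_single, lin_smul]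
        change C.aug x • lin C.bdc (trl 1 z0) = 0
        rw [bdc_trl, hz.bd_zero, trl_zero, smul_zero]
      · rw [← phi_bd x hx, lin_lin, lin_lin]
        exact lin_congr fun l _ => psi_bd hz l

end Pool.Agent.LT.H29
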