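import Pool.Agent.Helper61_LT.Stmts

/-!
# LT: linear extensions, translations and lists (helper29)
-/

set_option autoImplicit false

namespace Pool.Agent.LT.H29

section lin

variable {A B D : Type}

theorem lin_eq (F : A → (B →₀ ℤ)) (z : A →₀ ℤ) : lin F z = Finsupp.linearCombination ℤ F z := by
  rw [Finsupp.linearCombination_apply]; rfl

theorem lin_zero (F : A → (B →₀ ℤ)) : lin F 0 = 0 := by rw [lin_eq, map_zero]

theorem lin_single (F : A → (B →₀ ℤ)) (a : A) (k : ℤ) :
    lin F (Finsupp.single a k) = k • F a := by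
  rw [lin_eq, Finsupp.linearCombination_single]

theorem lin_single_one (F : A → (B →₀ ℤ)) (a : A) : lin F (Finsupp.single a 1) = F a := by
  rw [lin_single, one_smul]

theorem lin_add (F : A → (B →₀ ℤ)) (z w : A →₀ ℤ) : lin F (z + w) = lin F z + lin F w := by
  simp only [lin_eq, map_add]

theorem lin_sub (F : A → (B →₀ ℤ)) (z w : A →₀ ℤ) : lin F (z - w) = lin F z - lin F w := by
  simp only [lin_eq, map_sub]

theorem lin_neg (F : A → (B →₀ ℤ)) (z : A →₀ ℤ) : lin F (-z) = -lin F z := by
  simp only [lin_eq, map_neg]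

theorem lin_smul (F : A → (B →₀ ℤ)) (k : ℤ) (z : A →₀ ℤ) : lin F (k • z) = k • lin F z := by
  simp only [lin_eq, map_smul]

theorem lin_congr {F H : A → (B →₀ ℤ)} {z : A →₀ ℤ} (h : ∀ a ∈ z.support, F a = H a) :
    lin F z = lin H z :=
  Finsupp.sum_congr fun a ha => by rw [h a ha]

theorem lin_fun_add (F H : A → (B →₀ ℤ)) (z : A →₀ ℤ) :
    lin (fun a => F a + H a) z = lin F z + lin H z := by
  simp only [lin, smul_add, Finsupp.sum_add]

theorem lin_fun_sub (F H : A → (B →₀ ℤ)) (z : A →₀ ℤ) :
    lin (fun a => F a - H a) z = lin F z - lin H z := by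
  simp only [lin, smul_sub, Finsupp.sum_sub]

theorem lin_fun_zero (z : A →₀ ℤ) : lin (fun _ => (0 : B →₀ ℤ)) z = 0 := by
  simp only [lin, smul_zero, Finsupp.sum_fun_zero]

theorem lin_fun_single (z : A →₀ ℤ) : lin (fun a => Finsupp.single a 1) z = z := by
  unfold lin
  conv_rhs => rw [← Finsupp.sum_single z]
  exact Finsupp.sum_congr fun a _ => by simp

/-- `lin` commutes with additive maps. -/
theorem map_lin {M : Type} [AddCommGroup M] (T : (B →₀ ℤ) →+ M) (F : A → (B →₀ ℤ)) (z : A →₀ ℤ) :
    T (lin F z) = z.sum fun a k => k • T (F a) := by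
  unfold lin
  rw [map_finsuppSum]
  exact Finsupp.sum_congr fun a _ => by rw [map_zsmul]

theorem lin_lin (F : B → (D →₀ ℤ)) (H : A → (B →₀ ℤ)) (z : A →₀ ℤ) :
    lin F (lin H z) = lin (fun a => lin F (H a)) z := by
  have := map_lin (Finsupp.linearCombination ℤ F).toAddMonoidHom H z
  simp only [LinearMap.toAddMonoidHom_coe, ← lin_eq] at this
  exact this

theorem mapDomain_lin (f : B → D) (F : A → (B →₀ ℤ)) (z : A →₀ ℤ) :
    (lin F z).mapDomain f = lin (fun a => (F a).mapDomain f) z := by
  exact map_lin (Finsupp.mapDomain.addMonoidHom f) F z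

theorem mapDomain_eq_lin (f : A → B) (z : A →₀ ℤ) :
    z.mapDomain f = lin (fun a => Finsupp.single (f a) 1) z := by
  unfold Finsupp.mapDomain lin
  exact Finsupp.sum_congr fun a _ => by simp

theorem lin_mapDomain (F : B → (D →₀ ℤ)) (f : A → B) (z : A →₀ ℤ) :
    lin F (z.mapDomain f) = lin (fun a => F (f a)) z := by
  rw [mapDomain_eq_lin, lin_lin]
  exact lin_congr fun a _ => lin_single_one F _

theorem mem_supp_lin {F : A → (B →₀ ℤ)} {z : A →₀ ℤ} {b : B} (h : b ∈ (lin F z).support) :
    ∃ a ∈ z.support, b ∈ (F a).support := by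
  classical
  have h1 := Finsupp.support_sum h
  rw [Finset.mem_biUnion] at h1
  obtain ⟨a, ha, hb⟩ := h1
  exact ⟨a, ha, Finsupp.support_smul hb⟩

theorem mem_supp_mapDomain {f : A → B} {z : A →₀ ℤ} {b : B} (h : b ∈ (z.mapDomain f).support) :
    ∃ a ∈ z.support, f a = b := by
  classical
  have h1 := Finsupp.mapDomain_support h
  rwa [Finset.mem_image] at h1

theorem mapDomain_sub' (f : A → B) (z w : A →₀ ℤ) :
    (z - w).mapDomain f = z.mapDomain f - w.mapDomain f :=
  (Finsupp.mapDomain.addMonoidHom f).map_sub z w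

theorem mapDomain_neg' (f : A → B) (z : A →₀ ℤ) :
    (-z).mapDomain f = -z.mapDomain f :=
  (Finsupp.mapDomain.addMonoidHom f).map_neg z

theorem mapDomain_zsmul' (f : A → B) (k : ℤ) (z : A →₀ ℤ) :
    (k • z).mapDomain f = k • z.mapDomain f :=
  (Finsupp.mapDomain.addMonoidHom f).map_zsmul k z

end lin

section lists

variable {A B : Type}

theorem lbd_nil : lbd ([] : List A) = 0 := rfl

theorem lbd_cons (a : A) (l : List A) :
    lbd (a :: l) = Finsupp.single l 1 - (lbd l).mapDomain (List.cons a) := rfl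

theorem lbd_len (l : List A) : ∀ l' ∈ (lbd l).support, l'.length + 1 = l.length := by
  classical
  induction l with
  | nil => intro l' h; simp [lbd_nil] at h
  | cons a l ih =>
    intro l' h
    rw [lbd_cons] at h
    rcases Finset.mem_union.1 (Finsupp.support_sub h) with h | h
    · have := Finsupp.support_single_subset h
      rw [Finset.mem_singleton] at this
      subst this
      rfl
    · obtain ⟨m, hm, rfl⟩ := mem_supp_mapDomain h
      simp [ih m hm]

theorem lbd_map (F : A → B) (l : List A) :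
    lbd (l.map F) = (lbd l).mapDomain (List.map F) := by
  induction l with
  | nil => simp [lbd_nil]
  | cons a l ih =>
    rw [List.map_cons, lbd_cons, lbd_cons, ih, mapDomain_sub', Finsupp.mapDomain_single,
      ← Finsupp.mapDomain_comp, ← Finsupp.mapDomain_comp]
    rfl

/-- The boundary of the cone. -/
theorem lin_lbd_cons (a : A) (z : List A →₀ ℤ) :
    lin lbd (z.mapDomain (List.cons a)) = z - (lin lbd z).mapDomain (List.cons a) := by
  rw [lin_mapDomain, mapDomain_lin]
  simp only [lbd_cons]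
  rw [lin_fun_sub, lin_fun_single]

theorem lbd_lbd (l : List A) : lin lbd (lbd l) = 0 := by
  induction l with
  | nil => rw [lbd_nil, lin_zero]
  | cons a l ih =>
    rw [lbd_cons, lin_sub, lin_single_one, lin_lbd_cons, ih, Finsupp.mapDomain_zero, sub_zero,
      sub_self]

end lists

section trl

variable {G : Type} [Group G] {X : Type}

theorem trl_one (z : G × X →₀ ℤ) : trl 1 z = z := by
  unfold trl
  simp only [one_mul, Prod.mk.eta]
  exact Finsupp.mapDomain_id

theorem trl_trl (g h : G) (z : G × X →₀ ℤ) : trl g (trl h z) = trl (g * h) z := by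
  unfold trl
  rw [← Finsupp.mapDomain_comp]
  simp only [Function.comp_def, mul_assoc]

theorem trl_zero (g : G) : trl g (0 : G × X →₀ ℤ) = 0 := Finsupp.mapDomain_zero

theorem trl_sub (g : G) (z w : G × X →₀ ℤ) : trl g (z - w) = trl g z - trl g w :=
  mapDomain_sub' _ z w

theorem trl_zsmul (g : G) (k : ℤ) (z : G × X →₀ ℤ) : trl g (k • z) = k • trl g z :=
  mapDomain_zsmul' _ k z

theorem trl_single (g : G) (p : G × X) (k : ℤ) :
    trl g (Finsupp.single p k) = Finsupp.single (g * p.1, p.2) k := Finsupp.mapDomain_single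

theorem mem_supp_trl {g : G} {z : G × X →₀ ℤ} {p : G × X} (h : p ∈ (trl g z).support) :
    ∃ q ∈ z.support, q.2 = p.2 := by
  obtain ⟨q, hq, rfl⟩ := mem_supp_mapDomain h
  exact ⟨q, hq, rfl⟩

/-- The equivariant extension of a map on cells. -/
noncomputable def ext (F : X → (G × X →₀ ℤ)) (z : G × X →₀ ℤ) : G × X →₀ ℤ :=
  lin (fun p => trl p.1 (F p.2)) z

theorem trl_lin {A : Type} (g : G) (F : A → (G × X →₀ ℤ)) (z : A →₀ ℤ) :
    trl g (lin F z) = lin (fun a => trl g (F a)) z := mapDomain_lin _ F z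

theorem ext_trl (F : X → (G × X →₀ ℤ)) (g : G) (z : G × X →₀ ℤ) :
    ext F (trl g z) = trl g (ext F z) := by
  unfold ext
  rw [trl_lin]
  conv_lhs => unfold trl
  rw [lin_mapDomain]
  exact lin_congr fun p _ => (trl_trl _ _ _).symm

end trl

end Pool.Agent.LT.H29
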