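import Pool.Agent.Helper29_LT.Basic

/-!
# LT: the resolution in terms of chains (helper29)
-/

set_option autoImplicit false
set_option linter.unusedSectionVars false

namespace Pool.Agent.LT.H29

open Matrix

section unh

variable {G : Type} [Group G] {X : Type} [Fintype X]

/-- The chain of a row vector. -/
noncomputable def unh (w : X → MonoidAlgebra ℤ G) : G × X →₀ ℤ :=
  ∑ x, (w x).coeff.mapDomain fun g => (g, x)

/-- The row vector of a chain. -/
noncomputable def hat (z : G × X →₀ ℤ) (x : X) : MonoidAlgebra ℤ G :=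
  MonoidAlgebra.ofCoeff (z.comapDomain (fun g => (g, x))
    (fun _ _ _ _ h => (Prod.ext_iff.1 h).1))

theorem unh_apply (w : X → MonoidAlgebra ℤ G) (h : G) (y : X) :
    unh w (h, y) = (w y).coeff h := by
  classical
  unfold unh
  rw [Finset.sum_apply', Finset.sum_eq_single y]
  · exact Finsupp.mapDomain_apply (f := fun g : G => (g, y))
      (fun _ _ h => (Prod.ext_iff.1 h).1) _ h
  · intro x _ hx
    refine Finsupp.mapDomain_of_notMem_range _ _ ?_
    rintro ⟨g, hg⟩
    exact hx (Prod.ext_iff.1 hg).2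
  · intro h; exact absurd (Finset.mem_univ _) h

theorem unh_hat (z : G × X →₀ ℤ) : unh (hat z) = z := by
  ext ⟨h, y⟩
  rw [unh_apply]
  rfl

theorem trl_apply (g : G) (z : G × X →₀ ℤ) (h : G) (y : X) :
    trl g z (h, y) = z (g⁻¹ * h, y) := by
  have hi : Function.Injective fun p : G × X => (g * p.1, p.2) := by
    rintro ⟨a, b⟩ ⟨c, d⟩ h
    simpa using h
  have := Finsupp.mapDomain_apply hi z (g⁻¹ * h, y)
  simp only [mul_inv_cancel_left] at this
  exact this

theorem unh_zero : unh (0 : X → MonoidAlgebra ℤ G) = 0 := by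
  ext ⟨h, y⟩
  rw [unh_apply]
  rfl

end unh

variable {G : Type} [Group G] (C : Res G)

theorem bd_unh (w : C.X → MonoidAlgebra ℤ G) : lin C.bdc (unh w) = unh (w ᵥ* C.bd) := by
  have h1 : lin C.bdc (unh w) = ∑ x, lin (fun g => trl g (C.row x)) (w x).coeff := by
    rw [lin_eq]
    unfold unh
    rw [map_sum]
    refine Finset.sum_congr rfl fun x _ => ?_
    rw [← lin_eq, lin_mapDomain]
    rfl
  rw [h1]
  ext ⟨h, y⟩
  rw [unh_apply, Finset.sum_apply']
  have h2 : ((w ᵥ* C.bd) y).coeff h = ∑ x, (w x * C.bd x y).coeff h := by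
    change (∑ x, w x * C.bd x y).coeff h = _
    rw [MonoidAlgebra.coeff_sum, Finset.sum_apply']
  rw [h2]
  refine Finset.sum_congr rfl fun x _ => ?_
  rw [MonoidAlgebra.coeff_mul_apply_left]
  unfold lin Finsupp.sum
  rw [Finsupp.finsetSum_apply]
  refine Finset.sum_congr rfl fun g _ => ?_
  rw [Finsupp.smul_apply, trl_apply, smul_eq_mul]
  congr 1
  exact unh_apply _ _ _

/-- The augmentation of chains. -/
noncomputable def eps : (G × C.X →₀ ℤ) →+ ℤ :=
  (Finsupp.linearCombination ℤ fun p : G × C.X => C.aug p.2).toAddMonoidHom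

theorem eps_single (p : G × C.X) (k : ℤ) : eps C (Finsupp.single p k) = k * C.aug p.2 := by
  unfold eps
  simp [Finsupp.linearCombination_single]

theorem eps_unh (w : C.X → MonoidAlgebra ℤ G) :
    eps C (unh w) = ∑ x, aug1 (w x) * C.aug x := by
  unfold unh
  rw [map_sum]
  refine Finset.sum_congr rfl fun x _ => ?_
  unfold Finsupp.mapDomain
  rw [map_finsuppSum]
  simp only [eps_single]
  unfold aug1 Finsupp.sum
  rw [Finset.sum_mul]

theorem eps_trl (g : G) (z : G × C.X →₀ ℤ) : eps C (trl g z) = eps C z := by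
  unfold trl Finsupp.mapDomain
  rw [map_finsuppSum]
  simp only [eps_single]
  conv_rhs => rw [← Finsupp.sum_single z]
  rw [map_finsuppSum]
  simp only [eps_single]

/-- Homogeneous chains. -/
def Ho (q : ℕ) (z : G × C.X →₀ ℤ) : Prop := ∀ p ∈ z.support, C.dim p.2 = q

variable {C}

theorem bd_bd (z : G × C.X →₀ ℤ) : lin C.bdc (lin C.bdc z) = 0 ∧ eps C (lin C.bdc z) = 0 := by
  rw [← unh_hat z, bd_unh]
  have := (C.exact (hat z ᵥ* C.bd)).2 ⟨_, rfl⟩
  refine ⟨?_, ?_⟩
  · rw [bd_unh, this.1, unh_zero]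
  · rw [eps_unh, this.2]

theorem exact1 (z : G × C.X →₀ ℤ) (h1 : lin C.bdc z = 0) (h2 : eps C z = 0) :
    ∃ y, lin C.bdc y = z := by
  have h3 : hat z ᵥ* C.bd = 0 := by
    have := bd_unh C (hat z)
    rw [unh_hat, h1] at this
    funext y
    ext h
    rw [← unh_apply, ← this]
    rfl
  have h4 : ∑ x, aug1 (hat z x) * C.aug x = 0 := by rw [← eps_unh, unh_hat, h2]
  obtain ⟨y, hy⟩ := (C.exact (hat z)).1 ⟨h3, h4⟩
  exact ⟨unh y, by rw [bd_unh, hy, unh_hat]⟩

theorem row_dim {x : C.X} {p : G × C.X} (h : p ∈ (C.row x).support) :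
    C.dim x = C.dim p.2 + 1 := by
  apply C.bd_dim
  intro h0
  have : C.row x p = 0 := by
    have h1 : C.row x p = (C.bd x p.2).coeff p.1 := unh_apply _ _ _
    rw [h1, h0]
    rfl
  exact (Finsupp.mem_support_iff.1 h) this

theorem bdc_dim {p q : G × C.X} (h : q ∈ (C.bdc p).support) : C.dim p.2 = C.dim q.2 + 1 := by
  obtain ⟨r, hr, h2⟩ := mem_supp_trl h
  rw [← h2]
  exact row_dim hr

theorem Ho.bd {q : ℕ} {z : G × C.X →₀ ℤ} (h : Ho C (q + 1) z) : Ho C q (lin C.bdc z) := by
  intro p hp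
  obtain ⟨r, hr, h2⟩ := mem_supp_lin hp
  have := bdc_dim h2
  rw [h r hr] at this
  omega

theorem Ho.bd_zero {z : G × C.X →₀ ℤ} (h : Ho C 0 z) : lin C.bdc z = 0 := by
  by_contra h0
  obtain ⟨p, hp⟩ := Finsupp.support_nonempty_iff.2 h0
  obtain ⟨r, hr, h2⟩ := mem_supp_lin hp
  have := bdc_dim h2
  rw [h r hr] at this
  omega

theorem Ho.eps_eq {q : ℕ} {z : G × C.X →₀ ℤ} (h : Ho C (q + 1) z) : eps C z = 0 := by
  rw [← Finsupp.sum_single z, map_finsuppSum]
  simp only [eps_single]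
  refine Finset.sum_eq_zero fun p hp => ?_
  change z p * C.aug p.2 = 0
  by_cases h0 : C.aug p.2 = 0
  · rw [h0, mul_zero]
  · have := C.aug_dim _ h0
    rw [h p hp] at this
    omega

theorem Ho.sub {q : ℕ} {z w : G × C.X →₀ ℤ} (h : Ho C q z) (h' : Ho C q w) : Ho C q (z - w) := by
  classical
  intro p hp
  rcases Finset.mem_union.1 (Finsupp.support_sub hp) with hp | hp
  · exact h p hp
  · exact h' p hp

theorem Ho.lin {A : Type} {F : A → (G × C.X →₀ ℤ)} {z : A →₀ ℤ} {q : ℕ}
    (h : ∀ a ∈ z.support, Ho C q (F a)) : Ho C q (lin F z) := by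
  intro p hp
  obtain ⟨a, ha, h2⟩ := mem_supp_lin hp
  exact h a ha p h2

theorem Ho.trl {q : ℕ} {z : G × C.X →₀ ℤ} (h : Ho C q z) (g : G) : Ho C q (trl g z) := by
  intro p hp
  obtain ⟨r, hr, h2⟩ := mem_supp_trl hp
  rw [← h2]
  exact h r hr

theorem Ho.zero {q : ℕ} : Ho C q 0 := by
  intro p hp
  simp at hp

theorem Ho.smul {q : ℕ} {z : G × C.X →₀ ℤ} (h : Ho C q z) (k : ℤ) : Ho C q (k • z) :=
  fun p hp => h p (Finsupp.support_smul hp)

theorem exact2 {q : ℕ} {z : G × C.X →₀ ℤ} (hz : Ho C q z) (h1 : lin C.bdc z = 0)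
    (h2 : eps C z = 0) : ∃ y, lin C.bdc y = z ∧ Ho C (q + 1) y := by
  classical
  obtain ⟨y, hy⟩ := exact1 z h1 h2
  refine ⟨y.filter fun p => C.dim p.2 = q + 1, ?_, ?_⟩
  · have h3 := Finsupp.filter_add_filter_not y (fun p => C.dim p.2 = q + 1)
    have h4 : lin C.bdc (y.filter fun p => C.dim p.2 = q + 1) +
        lin C.bdc (y.filter fun p => ¬ C.dim p.2 = q + 1) = z := by
      rw [← lin_add, h3, hy]
    have h5 : Ho C (q + 1) (y.filter fun p => C.dim p.2 = q + 1) := by
      intro p hp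
      rw [Finsupp.support_filter, Finset.mem_filter] at hp
      exact hp.2
    have h6 := h5.bd
    ext p
    by_cases hp : C.dim p.2 = q
    · rw [← h4, Finsupp.add_apply]
      have : lin C.bdc (y.filter fun p => ¬ C.dim p.2 = q + 1) p = 0 := by
        by_contra h0
        obtain ⟨r, hr, h7⟩ := mem_supp_lin (Finsupp.mem_support_iff.2 h0)
        rw [Finsupp.support_filter, Finset.mem_filter] at hr
        apply hr.2
        rw [bdc_dim h7, hp]
      rw [this, add_zero]
    · have h8 : z p = 0 := by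
        by_contra h0
        exact hp (hz p (Finsupp.mem_support_iff.2 h0))
      rw [h8]
      by_contra h0
      exact hp (h6 p (Finsupp.mem_support_iff.2 h0))
  · intro p hp
    rw [Finsupp.support_filter, Finset.mem_filter] at hp
    exact hp.2

open Classical in
/-- A preimage under the boundary. -/
noncomputable def pre (C : Res G) (q : ℕ) (z : G × C.X →₀ ℤ) : G × C.X →₀ ℤ :=
  if h : ∃ y, lin C.bdc y = z ∧ Ho C (q + 1) y then h.choose else 0

theorem pre_ho (q : ℕ) (z : G × C.X →₀ ℤ) : Ho C (q + 1) (pre C q z) := by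
  unfold pre
  split_ifs with h
  · exact h.choose_spec.2
  · exact Ho.zero

theorem bd_pre {q : ℕ} {z : G × C.X →₀ ℤ} (hz : Ho C q z) (h1 : lin C.bdc z = 0)
    (h2 : eps C z = 0) : lin C.bdc (pre C q z) = z := by
  have h := exact2 hz h1 h2
  unfold pre
  rw [dif_pos h]
  exact h.choose_spec.1

theorem bdc_trl (g : G) (z : G × C.X →₀ ℤ) : lin C.bdc (trl g z) = trl g (lin C.bdc z) :=
  ext_trl C.row g z

end Pool.Agent.LT.H29
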