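import Pool.Agent.Helper29_LT.Exact

/-!
# LT: HLC: `hL` is a chain map near good points (helper29)
-/

set_option autoImplicit false
set_option linter.unusedSectionVars false

namespace Pool.Agent.LT.H29

open Matrix

variable {G : Type} [Group G] {V : Type}

theorem gdn_gd {a : V → G → V} {R : Finset G} {k : ℕ} {v : V} (h : v ∈ Gdn a R k) :
    v ∈ Gd a R := by
  cases k with
  | zero => exact h
  | succ k => exact h.1

theorem gdn_succ {a : V → G → V} {R : Finset G} (k : ℕ) {v : V} (h : v ∈ Gdn a R (k + 1)) :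
    v ∈ Gdn a R k := by
  induction k generalizing v with
  | zero => exact h.1
  | succ k ih => exact ⟨h.1, fun g hg => ih (h.2 g hg)⟩

theorem gdn_anti {a : V → G → V} {R : Finset G} {k m : ℕ} (hkm : k ≤ m) {v : V}
    (h : v ∈ Gdn a R m) : v ∈ Gdn a R k := by
  induction m, hkm using Nat.le_induction with
  | base => exact h
  | succ m _ ih => exact ih (gdn_succ m h)

theorem bet_trl {X : Type} {a : V → G → V} {w : V} {g : G} {z : G × X →₀ ℤ}
    (h : ∀ p ∈ z.support, a (a w g) p.1 = a w (g * p.1)) :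
    bet a (a w g) z = bet a w (trl g z) := by
  unfold bet trl
  rw [← Finsupp.mapDomain_comp]
  refine Finsupp.mapDomain_congr fun p hp => ?_
  simp only [Function.comp_apply]
  rw [h p hp]

theorem map_inj_on {A B : Type} {f : A → B} {P : A → Prop}
    (hf : ∀ x y, P x → P y → f x = f y → x = y) :
    ∀ l l' : List A, (∀ x ∈ l, P x) → (∀ x ∈ l', P x) → l.map f = l'.map f → l = l' := by
  intro l
  induction l with
  | nil =>
    intro l' _ _ h
    cases l' with
    | nil => rfl
    | cons b l' => simp at h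
  | cons b l ih =>
    intro l' h1 h2 h
    cases l' with
    | nil => simp at h
    | cons b' l' =>
      rw [List.map_cons, List.map_cons, List.cons.injEq] at h
      rw [hf b b' (h1 b (by simp)) (h2 b' (by simp)) h.1,
        ih l' (fun x hx => h1 x (by simp [hx])) (fun x hx => h2 x (by simp [hx])) h.2]

theorem hL_cons (C : Res G) (ψ : List G → (G × C.X →₀ ℤ)) {a : V → G → V} {P R : Finset G}
    (hPR : P ⊆ R) {w : V} (hw : w ∈ Gd a R) {gs : List G} (hgs : ∀ g ∈ gs, g ∈ P) :
    hL C ψ a P R (w :: gs.map (a w)) = bet a w (ψ (1 :: gs)) := by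
  have h : w ∈ Gd a R ∧ ∃ gs' : List G, (∀ g ∈ gs', g ∈ P) ∧ gs.map (a w) = gs'.map (a w) :=
    ⟨hw, gs, hgs, rfl⟩
  have h1 : hL C ψ a P R (w :: gs.map (a w)) = bet a w (ψ (1 :: h.2.choose)) := by
    unfold hL
    exact dif_pos h
  have h2 := h.2.choose_spec
  have h3 : gs = h.2.choose :=
    map_inj_on (P := fun g => g ∈ P)
      (fun x y hx hy hxy => hw.2.2 x (hPR hx) y (hPR hy) hxy) _ _ hgs h2.1 h2.2
  rw [h1, ← h3]

theorem dV_bet [Fintype V] [DecidableEq V] (C : Res G) {a : V → G → V} {R : Finset G} {w : V}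
    {z : G × C.X →₀ ℤ} (h1 : ∀ p ∈ z.support, a w p.1 ∈ Gdn a R (C.dim p.2))
    (h2 : ∀ p ∈ z.support, ∀ q ∈ (C.row p.2).support, a (a w p.1) q.1 = a w (p.1 * q.1))
    (y : V × C.X) : ∑ u, dV C a R y u * bet a w z u = bet a w (lin C.bdc z) y := by
  have h3 : ∑ u, dV C a R y u * bet a w z u = (bet a w z).sum fun u k => k • dV C a R y u := by
    rw [Finsupp.sum_fintype]
    · exact Finset.sum_congr rfl fun u _ => by rw [smul_eq_mul, mul_comm]
    · intro u; exact zero_smul _ _
  have h4 : ((bet a w z).sum fun u k => k • dV C a R y u) =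
      z.sum fun p k => k • dV C a R y (a w p.1, p.2) := by
    unfold bet
    exact Finsupp.sum_mapDomain_index (fun u => zero_smul _ _) fun u k l => add_smul _ _ _
  have h5 : bet a w (lin C.bdc z) = lin (fun p => bet a w (C.bdc p)) z := mapDomain_lin _ _ _
  rw [h3, h4, h5]
  unfold lin Finsupp.sum
  rw [Finsupp.finsetSum_apply]
  refine Finset.sum_congr rfl fun p hp => ?_
  rw [Finsupp.smul_apply]
  have h6 : dV C a R y (a w p.1, p.2) = bet a w (C.bdc p) y := by
    unfold dV
    refine (if_pos (h1 p hp)).trans ?_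
    change (bet a (a w p.1) (C.row p.2)) y = _
    rw [bet_trl (h2 p hp)]
    rfl
  exact congrArg (z p • ·) h6

theorem supp_bound (C : Res G) (ψ : List G → (G × C.X →₀ ℤ)) (P : Finset G) (n : ℕ) :
    ∃ R : Finset G, ∀ l : List G, l.length ≤ n → (∀ g ∈ l, g ∈ P) →
      ∀ p ∈ (ψ (1 :: l)).support, p.1 ∈ R := by
  classical
  have h1 : {l : List G | l.length ≤ n ∧ ∀ g ∈ l, g ∈ P}.Finite := by
    refine ((List.finite_length_le P n).image (List.map Subtype.val)).subset ?_
    rintro l ⟨h2, h3⟩
    refine ⟨l.attach.map fun g => ⟨g.1, h3 g.1 g.2⟩, by simpa using h2, ?_⟩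
    rw [List.map_map]
    exact List.attach_map_subtype_val l
  refine ⟨h1.toFinset.biUnion fun l => (ψ (1 :: l)).support.image Prod.fst, ?_⟩
  intro l h2 h3 p hp
  rw [Finset.mem_biUnion]
  exact ⟨l, h1.mem_toFinset.2 ⟨h2, h3⟩, Finset.mem_image_of_mem _ hp⟩

theorem lbd_sub {A : Type} (l : List A) : ∀ l' ∈ (lbd l).support, ∀ x ∈ l', x ∈ l := by
  classical
  induction l with
  | nil => intro l' h; simp [lbd_nil] at h
  | cons b l ih =>
    intro l' h x hx
    rw [lbd_cons] at h
    rcases Finset.mem_union.1 (Finsupp.support_sub h) with h | h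
    · have := Finsupp.support_single_subset h
      rw [Finset.mem_singleton] at this
      subst this
      exact List.mem_cons_of_mem _ hx
    · obtain ⟨m, hm, rfl⟩ := mem_supp_mapDomain h
      rcases List.mem_cons.1 hx with rfl | hx
      · exact List.mem_cons_self
      · exact List.mem_cons_of_mem _ (ih m hm x hx)

/-- HLC. -/
theorem hlc : HlcStmt := by
  classical
  intro G _ C φ ψ θ hB n hn P
  obtain ⟨R1, hR1⟩ := supp_bound C ψ P (n + 1)
  refine ⟨P ∪ R1 ∪ Finset.univ.biUnion fun x => (C.row x).support.image Prod.fst, ?_, ?_⟩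
  · intro g hg
    simp [hg]
  intro R' hR' V _ _ a _ w hw gs hlen hgs
  have hP : P ⊆ R' := fun g hg => hR' (by simp [hg])
  have hR1' : R1 ⊆ R' := fun g hg => hR' (by simp [hg])
  have hrow : ∀ x, ∀ q ∈ (C.row x).support, q.1 ∈ R' := by
    intro x q hq
    refine hR' (Finset.mem_union_right _ ?_)
    rw [Finset.mem_biUnion]
    exact ⟨x, Finset.mem_univ _, Finset.mem_image_of_mem _ hq⟩
  have hw0 : w ∈ Gd a R' := gdn_gd hw
  have hgsP : ∀ g ∈ gs, g ∈ P := by
    intro g hg
    have := hgs 1 (by simp) g (by simp [hg])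
    simpa using this
  refine ⟨hL_cons C ψ hP hw0 hgsP, ?_⟩
  intro z
  rw [hL_cons C ψ hP hw0 hgsP]
  have hsupp : ∀ p ∈ (ψ (1 :: gs)).support, p.1 ∈ R' := fun p hp =>
    hR1' (hR1 gs hlen hgsP p hp)
  rw [dV_bet C (fun p hp => gdn_anti ((hn p.2).trans (Nat.le_succ n)) (hw.2 p.1 (hsupp p hp)))
    (fun p hp q hq => hw0.2.1 p.1 (hsupp p hp) q.1 (hrow p.2 q hq))]
  congr 1
  rw [hB.cψ]
  -- the face without the first vertex
  have h1 : hL C ψ a P R' (gs.map (a w)) = bet a w (ψ gs) := by
    cases gs with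
    | nil =>
      have h2 : ψ [] = 0 := by
        by_contra h0
        obtain ⟨p, hp⟩ := Finsupp.support_nonempty_iff.2 h0
        have := hB.lψ [] p hp
        simp at this
      rw [h2]
      unfold bet
      rw [Finsupp.mapDomain_zero]
      rfl
    | cons g gs =>
      have hg : g ∈ R' := hP (hgsP g (by simp))
      have hmem : ∀ x ∈ gs.map (g⁻¹ * ·), x ∈ P := by
        intro x hx
        obtain ⟨y, hy, rfl⟩ := List.mem_map.1 hx
        exact hgs g (by simp) y (by simp [hy])
      have h3 : gs.map (a w) = (gs.map (g⁻¹ * ·)).map (a (a w g)) := by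
        rw [List.map_map]
        refine List.map_congr_left fun x hx => ?_
        rw [Function.comp_apply, hw0.2.1 g hg (g⁻¹ * x)
          (hP (hmem _ (List.mem_map_of_mem hx))), mul_inv_cancel_left]
      have hw1 : a w g ∈ Gd a R' := gdn_gd (hw.2 g hg)
      rw [List.map_cons, h3, hL_cons C ψ hP hw1 hmem, bet_trl, ← hB.eq, List.map_cons, mul_one,
        List.map_map]
      · congr 3
        conv_rhs => rw [← List.map_id gs]
        refine List.map_congr_left fun x _ => ?_
        simp
      · intro p hp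
        refine hw0.2.1 g hg p.1 (hR1' (hR1 (gs.map (g⁻¹ * ·)) ?_ hmem p hp))
        simp only [List.length_cons, List.length_map] at hlen ⊢
        omega
  rw [lbd_cons, lbd_cons, lin_sub, lin_sub, lin_single_one, lin_single_one, h1]
  unfold bet
  rw [mapDomain_sub']
  congr 1
  rw [lin_mapDomain, lin_mapDomain, mapDomain_lin, lbd_map, lin_mapDomain]
  refine lin_congr fun l hl => ?_
  refine (hL_cons C ψ hP hw0 fun x hx => hgsP x (lbd_sub gs l hl x hx)).symm

end Pool.Agent.LT.H29
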